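import Pool.Agent.MP_321614_gt.Sol.Cor

/-!
A hereditarily indecomposable continuum such that every nondegenerate subcontinuum of every
monotone image maps onto every solenoid.
-/

set_option autoImplicit false

namespace Pool.Agent.Results.MP_321614_gt.OntoSolenoids

open Pool.Agent.MP_321614_gt.Sol

theorem result :
    ∃ (M : Type) (_ : MetricSpace M), CompactSpace M ∧ ConnectedSpace M ∧ Nontrivial M ∧
      (∀ A B : Set M, IsCompact A → IsConnected A → IsCompact B → IsConnected B →
        (A ∩ B).Nonempty → A ⊆ B ∨ B ⊆ A) ∧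
      ∀ (Y : Type) (_ : MetricSpace Y) (f : M → Y),
        Continuous f → Function.Surjective f → (∀ y : Y, IsConnected (f ⁻¹' {y})) →
        ∀ K : Set Y, IsCompact K → IsConnected K → K.Nontrivial →
          ∀ m : ℕ → ℕ, (∀ n, 0 < m n) →
            ∃ g : Y → ℕ → Circle, Continuous g ∧
              g '' K = {w | ∀ n, w (n + 1) ^ m n = w n} := by
  obtain ⟨M, hc, hconn, hnt, hM⟩ := exists_continuumS
  have h1 : CompactSpace M := isCompact_iff_compactSpace.1 hc
  have h2 : ConnectedSpace M := Subtype.connectedSpace hconn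
  refine ⟨M, TopologicalSpace.metrizableSpaceMetric M, h1, h2, Set.nontrivial_coe_sort.2 hnt,
    @nested M (TopologicalSpace.metrizableSpaceMetric M) hM, ?_⟩
  intro Y _ f hf hfs hfib
  exact @onto_solenoid M (TopologicalSpace.metrizableSpaceMetric M) h1 hM Y _ f hf hfs hfib

/-- The posed question (Q1, in the wording of the frozen statement) follows from `result`. -/
theorem q1 :
    ∃ (M : Type) (_ : MetricSpace M), CompactSpace M ∧ ConnectedSpace M ∧ Nontrivial M ∧
      ∀ (Y : Type) (_ : MetricSpace Y) (f : M → Y),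
        Continuous f → Function.Surjective f → (∀ y : Y, IsConnected (f ⁻¹' {y})) →
        ¬ ∃ K : Set Y, IsCompact K ∧ IsConnected K ∧ K.Nontrivial ∧
          ∀ ε : ℝ, 0 < ε → ∃ (n : ℕ) (U : Fin n → Set Y),
            (∀ i, IsOpen (U i)) ∧
            (∀ i, Metric.diam (U i ∩ K) < ε) ∧
            K ⊆ ⋃ i, U i ∧
            (∀ i j, (U i ∩ U j ∩ K).Nonempty ↔ (i.val ≤ j.val + 1 ∧ j.val ≤ i.val + 1)) := by
  obtain ⟨M, i, h1, h2, h3, -, h⟩ := result
  refine ⟨M, i, h1, h2, h3, fun Y j f hf hs hm ⟨K, k1, k2, k3, k4⟩ => ?_⟩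
  obtain ⟨g, hg, hK⟩ := h Y j f hf hs hm K k1 k2 k3 (fun _ => 2) fun _ => two_pos
  exact not_chainable K k1 k2 g hg hK k4

end Pool.Agent.Results.MP_321614_gt.OntoSolenoids
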